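import Pool.Agent.Helper41.Cluster4.Goals

/-! `n` points on a circle: two of them are close. -/

namespace Pool.Agent.Helper40.Cl4

open Module Pool.Agent.Helper41.Cluster4
open scoped RealInnerProductSpace

theorem inner_arg (ρ : ℝ) (hρ : 0 < ρ) (p v w : ℂ) (hp : ‖p‖ = ρ) (hv : ‖v‖ = ρ) (hw : ‖w‖ = ρ) :
    ⟪v, w⟫ = ρ ^ 2 * Real.cos (Complex.arg (v / p) - Complex.arg (w / p)) := by
  have hp0 : p ≠ 0 := by
    intro h
    rw [h, norm_zero] at hp
    exact hρ.ne hp
  have key : ∀ z : ℂ, ‖z‖ = ρ → z = p * (Real.cos (Complex.arg (z / p)) +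
      Real.sin (Complex.arg (z / p)) * Complex.I) := by
    intro z hz
    have h1 := Complex.norm_mul_cos_add_sin_mul_I (z / p)
    have h2 : ‖z / p‖ = 1 := by rw [norm_div, hz, hp, div_self hρ.ne']
    rw [h2] at h1
    have h3 : z = p * (z / p) := by field_simp
    conv_lhs => rw [h3, ← h1]
    push_cast
    ring
  have hpp : p.re ^ 2 + p.im ^ 2 = ρ ^ 2 := by
    rw [← hp, ← Complex.normSq_eq_norm_sq, Complex.normSq_apply]
    ring
  have e1 := key v hv
  have e2 := key w hw
  set α := Complex.arg (v / p)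
  set β := Complex.arg (w / p)
  have i1 : ⟪v, w⟫ = v.re * w.re + v.im * w.im := by
    rw [Complex.inner]
    simp [Complex.mul_re]
    ring
  have r1 : v.re = p.re * Real.cos α - p.im * Real.sin α := by
    have := congrArg Complex.re e1
    simpa [-Complex.ofReal_cos, -Complex.ofReal_sin] using this
  have r2 : v.im = p.re * Real.sin α + p.im * Real.cos α := by
    have := congrArg Complex.im e1
    simpa [-Complex.ofReal_cos, -Complex.ofReal_sin] using this
  have r3 : w.re = p.re * Real.cos β - p.im * Real.sin β := by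
    have := congrArg Complex.re e2
    simpa [-Complex.ofReal_cos, -Complex.ofReal_sin] using this
  have r4 : w.im = p.re * Real.sin β + p.im * Real.cos β := by
    have := congrArg Complex.im e2
    simpa [-Complex.ofReal_cos, -Complex.ofReal_sin] using this
  rw [i1, r1, r2, r3, r4, Real.cos_sub, ← hpp]
  ring

theorem circC (ρ : ℝ) (hρ : 0 < ρ) (s : Finset ℂ) (n : ℕ) (hs : ∀ z ∈ s, ‖z‖ = ρ) (hn : 2 ≤ n)
    (hc : n ≤ s.card) :
    ∃ v ∈ s, ∃ w ∈ s, v ≠ w ∧ ρ ^ 2 * Real.cos (2 * Real.pi / n) ≤ ⟪v, w⟫ := by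
  have hne : s.Nonempty := by
    rw [← Finset.card_pos]
    omega
  obtain ⟨p, hp⟩ := hne
  set θ : ℂ → ℝ := fun z => toIcoMod Real.two_pi_pos 0 (Complex.arg (z / p)) with hθ
  have hn0 : (0 : ℝ) < n := by
    have : 0 < n := by omega
    exact_mod_cast this
  have hn2 : (2 : ℝ) ≤ n := by exact_mod_cast hn
  have hpi := Real.pi_pos
  have hδ : 0 < 2 * Real.pi / n := by positivity
  have hδπ : 2 * Real.pi / n ≤ Real.pi := by
    rw [div_le_iff₀ hn0]
    nlinarith
  have hnδ : (n : ℝ) * (2 * Real.pi / n) = 2 * Real.pi := by field_simp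
  set δ := 2 * Real.pi / n with hδd
  have hθ0 : ∀ z, 0 ≤ θ z := fun z => (left_le_toIcoMod Real.two_pi_pos 0 _)
  have hθ1 : ∀ z, θ z < 2 * Real.pi := fun z => by
    have := toIcoMod_lt_right Real.two_pi_pos 0 (Complex.arg (z / p))
    rwa [zero_add] at this
  have hk : ∀ z, ∃ k : ℤ, Complex.arg (z / p) = θ z + k * (2 * Real.pi) := by
    intro z
    refine ⟨toIcoDiv Real.two_pi_pos 0 (Complex.arg (z / p)), ?_⟩
    have := toIcoMod_add_toIcoDiv_zsmul Real.two_pi_pos 0 (Complex.arg (z / p))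
    rw [zsmul_eq_mul] at this
    exact this.symm
  have hin : ∀ v ∈ s, ∀ w ∈ s, ⟪v, w⟫ = ρ ^ 2 * Real.cos (θ v - θ w) := by
    intro v hv w hw
    rw [inner_arg ρ hρ p v w (hs p hp) (hs v hv) (hs w hw)]
    obtain ⟨k, hk1⟩ := hk v
    obtain ⟨l, hl⟩ := hk w
    rw [hk1, hl]
    have : θ v + k * (2 * Real.pi) - (θ w + l * (2 * Real.pi)) =
        θ v - θ w + ((k - l : ℤ) : ℝ) * (2 * Real.pi) := by
      push_cast
      ring
    rw [this, Real.cos_add_int_mul_two_pi]
  have hθp : θ p = 0 := by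
    have hp0 : p ≠ 0 := by
      intro h
      have := hs p hp
      rw [h, norm_zero] at this
      exact hρ.ne this
    simp only [hθ, div_self hp0, Complex.arg_one]
    exact toIcoMod_apply_left Real.two_pi_pos 0
  have hcos : ∀ x : ℝ, |x| ≤ δ → Real.cos δ ≤ Real.cos x := by
    intro x hx
    rw [← Real.cos_abs x]
    exact Real.cos_le_cos_of_nonneg_of_le_pi (abs_nonneg x) hδπ hx
  by_cases h1 : ∃ z ∈ s, z ≠ p ∧ (θ z ≤ δ ∨ 2 * Real.pi - δ ≤ θ z)
  · obtain ⟨z, hz, hzp, hz1⟩ := h1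
    refine ⟨z, hz, p, hp, hzp, ?_⟩
    rw [hin z hz p hp, hθp, sub_zero]
    refine mul_le_mul_of_nonneg_left ?_ (by positivity)
    rcases hz1 with h | h
    · exact hcos _ (by rw [abs_of_nonneg (hθ0 z)]; exact h)
    · have : Real.cos (θ z) = Real.cos (2 * Real.pi - θ z) := (Real.cos_two_pi_sub _).symm
      rw [this]
      refine hcos _ ?_
      rw [abs_of_nonneg (by linarith [hθ1 z])]
      linarith
  · push Not at h1
    set f : ℂ → ℕ := fun z => ⌊(θ z - δ) / δ⌋₊ with hf
    have hcard : (Finset.range (n - 2)).card < (s.erase p).card := by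
      rw [Finset.card_range, Finset.card_erase_of_mem hp]
      omega
    have hmaps : ∀ z ∈ s.erase p, f z ∈ Finset.range (n - 2) := by
      intro z hz
      rw [Finset.mem_erase] at hz
      obtain ⟨hzp, hzs⟩ := hz
      obtain ⟨h2, h3⟩ := h1 z hzs hzp
      rw [Finset.mem_range, hf]
      simp only
      rw [Nat.floor_lt (by apply div_nonneg <;> linarith), div_lt_iff₀ hδ,
        Nat.cast_sub hn]
      push_cast
      nlinarith
    obtain ⟨x, hx, y, hy, hxy, hfxy⟩ := Finset.exists_ne_map_eq_of_card_lt_of_maps_to hcard hmaps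
    rw [Finset.mem_erase] at hx hy
    refine ⟨x, hx.2, y, hy.2, hxy, ?_⟩
    rw [hin x hx.2 y hy.2]
    refine mul_le_mul_of_nonneg_left ?_ (by positivity)
    refine hcos _ ?_
    have a1 : 0 ≤ (θ x - δ) / δ := div_nonneg (by linarith [(h1 x hx.2 hx.1).1]) hδ.le
    have a2 : 0 ≤ (θ y - δ) / δ := div_nonneg (by linarith [(h1 y hy.2 hy.1).1]) hδ.le
    have b1 := Nat.floor_le a1
    have b2 := Nat.floor_le a2
    have c1 := Nat.lt_floor_add_one ((θ x - δ) / δ)
    have c2 := Nat.lt_floor_add_one ((θ y - δ) / δ)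
    have e : ⌊(θ x - δ) / δ⌋₊ = ⌊(θ y - δ) / δ⌋₊ := hfxy
    rw [e] at b1 c1
    rw [le_div_iff₀ hδ] at b1 b2
    rw [div_lt_iff₀ hδ] at c1 c2
    rw [abs_le]
    constructor <;> linarith

theorem circle4 {E : Type*} [NormedAddCommGroup E] [InnerProductSpace ℝ E] : Circle4 E := by
  intro P hP ρ s n hs hn hc
  have : FiniteDimensional ℝ P := Module.finite_of_finrank_pos (by omega)
  have hne : s.Nonempty := by
    rw [← Finset.card_pos]
    omega
  have hρ : 0 < ρ := by
    obtain ⟨v, hv⟩ := hne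
    rcases (norm_nonneg v).lt_or_eq with h | h
    · rw [← (hs v hv).2]
      exact h
    · exfalso
      have hρ0 : ρ = 0 := by rw [← (hs v hv).2]; exact h.symm
      have : s ⊆ {0} := by
        intro w hw
        rw [Finset.mem_singleton]
        have := (hs w hw).2
        rw [hρ0, norm_eq_zero] at this
        exact this
      have := Finset.card_le_card this
      simp at this
      omega
  let b : OrthonormalBasis (Fin 2) ℝ P := (stdOrthonormalBasis ℝ P).reindex (finCongr hP)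
  let e : P ≃ₗᵢ[ℝ] ℂ := b.equiv Complex.orthonormalBasisOneI (Equiv.refl _)
  let g : {v // v ∈ s} → ℂ := fun v => e ⟨v.1, (hs v.1 v.2).1⟩
  have hg : Function.Injective g := by
    intro v w hvw
    have h1 : (⟨v.1, (hs v.1 v.2).1⟩ : P) = ⟨w.1, (hs w.1 w.2).1⟩ := e.injective hvw
    have h2 : v.1 = w.1 := by simpa using h1
    exact Subtype.ext h2
  classical
  obtain ⟨x, hx, y, hy, hxy, h⟩ := circC ρ hρ (s.attach.image g) n (by
    intro z hz
    obtain ⟨v, _, rfl⟩ := Finset.mem_image.mp hz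
    simp only [g, LinearIsometryEquiv.norm_map]
    exact (hs v.1 v.2).2) hn (by
    rw [Finset.card_image_of_injective _ hg, Finset.card_attach]
    exact hc)
  obtain ⟨v, _, rfl⟩ := Finset.mem_image.mp hx
  obtain ⟨w, _, rfl⟩ := Finset.mem_image.mp hy
  refine ⟨v.1, v.2, w.1, w.2, ?_, ?_⟩
  · intro hvw
    exact hxy (by rw [Subtype.ext hvw])
  · simp only [g, LinearIsometryEquiv.inner_map_map] at h
    exact h

end Pool.Agent.Helper40.Cl4
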